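import Pool.Agent.P.MP_4cb405_co.Basic

/-! Placements, splits of an interval of vertices, gluing. -/

set_option autoImplicit false

namespace Pool.Agent.P.MP_4cb405_co.Hs

open Finset
open scoped Classical

variable {f : ℕ → ℕ → ℕ} {c : ℕ} {ρ : ℕ → ℕ}

/-- The two points are joined in colour `c`. -/
def Ed (f : ℕ → ℕ → ℕ) (c x y : ℕ) : Prop := (x < y ∧ f x y = c) ∨ (y < x ∧ f y x = c)

theorem Ed.symm {x y : ℕ} (h : Ed f c x y) : Ed f c y x := Or.symm h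

/-- The number of neighbours of `x` in `R`. -/
noncomputable def dg (f : ℕ → ℕ → ℕ) (c x : ℕ) (R : Finset ℕ) : ℝ :=
  ((R.filter (Ed f c x)).card : ℝ)

/-- A placement of the vertices `l, ..., r` in `X` with all gaps in `[3 ^ u, 3 ^ v)`. -/
structure Pl (f : ℕ → ℕ → ℕ) (c : ℕ) (ρ : ℕ → ℕ) (X : Finset ℕ) (l r u v : ℕ) (x : ℕ → ℕ) :
    Prop where
  mem : ∀ i, l ≤ i → i ≤ r → x i ∈ X
  col : ∀ i j, l ≤ i → i < j → j ≤ r → x i < x j ∧ f (x i) (x j) = c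
  win : ∀ i, l ≤ i → i < r → 3 ^ u ≤ x (i + 1) - x i ∧ x (i + 1) - x i < 3 ^ v
  ord : ∀ i j, l ≤ i → i < r → l ≤ j → j < r → ρ i < ρ j → x (j + 1) - x j < x (i + 1) - x i

theorem Pl.mono {X X' : Finset ℕ} {l r u v u' v' : ℕ} {x : ℕ → ℕ} (h : Pl f c ρ X l r u v x)
    (hX : X ⊆ X') (hu : u' ≤ u) (hv : v ≤ v') : Pl f c ρ X' l r u' v' x :=
  ⟨fun i a b => hX (h.mem i a b), h.col, fun i a b =>
    ⟨(Nat.pow_le_pow_right (by norm_num) hu).trans (h.win i a b).1,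
      (h.win i a b).2.trans_le (Nat.pow_le_pow_right (by norm_num) hv)⟩, h.ord⟩

theorem Pl.cell {X : Finset ℕ} {l r u v h o : ℕ} {x : ℕ → ℕ} (H : Pl f c ρ X l r u v x)
    (hX : X ⊆ Cs h o) : Pl f c ρ X l r u h x :=
  ⟨H.mem, H.col, fun i a b => ⟨(H.win i a b).1, by
    have a1 := Cs_range _ _ _ (hX (H.mem i a b.le))
    have a2 := Cs_range _ _ _ (hX (H.mem (i + 1) (by omega) b))
    omega⟩, H.ord⟩

theorem pl_one {X : Finset ℕ} {z : ℕ} (hz : z ∈ X) (l u v : ℕ) :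
    Pl f c ρ X l l u v fun _ => z :=
  ⟨fun _ _ _ => hz, fun _ _ _ _ _ => by omega, fun _ _ _ => by omega,
    fun _ _ _ _ _ _ _ => by omega⟩

/-- All gaps of the first interval come before those of the second. -/
def Bef (ρ : ℕ → ℕ) (l r l' r' : ℕ) : Prop :=
  ∀ i j, l ≤ i → i < r → l' ≤ j → j < r' → ρ i < ρ j

/-- The split of `[l, r]` at its largest gap; the piece `[l₁, r₁]` is on the left iff `s`. -/
def Spl (ρ : ℕ → ℕ) (l r l₁ r₁ l₂ r₂ : ℕ) (s : Bool) : Prop :=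
  ∃ m, l ≤ m ∧ m < r ∧ (∀ i, l ≤ i → i < r → ρ m ≤ ρ i) ∧
    if s then l₁ = l ∧ r₁ = m ∧ l₂ = m + 1 ∧ r₂ = r else l₁ = m + 1 ∧ r₁ = r ∧ l₂ = l ∧ r₂ = m

theorem Spl.size {l r l₁ r₁ l₂ r₂ : ℕ} {s : Bool} (h : Spl ρ l r l₁ r₁ l₂ r₂ s) :
    l₁ ≤ r₁ ∧ l₂ ≤ r₂ ∧ l < r ∧ r - l = (r₁ - l₁) + (r₂ - l₂) + 1 := by
  obtain ⟨m, h1, h2, -, h3⟩ := h
  cases s <;> simp at h3 <;> omega

/-- Separated intervals of bounded Horton-Strahler number. -/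
inductive Tr (ρ : ℕ → ℕ) : ℕ → ℕ → ℕ → Prop
  | one (i l : ℕ) : Tr ρ i l l
  | step {i l r l₁ r₁ l₂ r₂ : ℕ} {s : Bool} : Spl ρ l r l₁ r₁ l₂ r₂ s → Tr ρ i l₁ r₁ →
      Tr ρ (i + 1) l₂ r₂ → (Bef ρ l₁ r₁ l₂ r₂ ∨ Bef ρ l₂ r₂ l₁ r₁) → Tr ρ (i + 1) l r

/-- The left or the right half of a cell. -/
def hf (h o : ℕ) (s : Bool) : Finset ℕ := if s then Cs h o else Cs h (o + 2 * 3 ^ h)

theorem hf_cell (h o : ℕ) (s : Bool) : ∃ o', hf h o s = Cs h o' := by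
  cases s <;> exact ⟨_, rfl⟩

theorem glue₀ {X A B : Finset ℕ} {l m r u u₁ v₁ u₂ v₂ h o : ℕ} {x y : ℕ → ℕ} (hl : l ≤ m)
    (hr : m < r) (hm : ∀ i, l ≤ i → i < r → ρ m ≤ ρ i) (hx : Pl f c ρ A l m u₁ v₁ x)
    (hy : Pl f c ρ B (m + 1) r u₂ v₂ y) (hA : A ⊆ Cs h o) (hB : B ⊆ Cs h (o + 2 * 3 ^ h))
    (hAX : A ⊆ X) (hBX : B ⊆ X)
    (he : ∀ i j, l ≤ i → i ≤ m → m + 1 ≤ j → j ≤ r → Ed f c (x i) (y j))
    (hs : (Bef ρ l m (m + 1) r ∧ v₂ ≤ u₁) ∨ (Bef ρ (m + 1) r l m ∧ v₁ ≤ u₂))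
    (h1 : u ≤ u₁) (h2 : u ≤ u₂) (h3 : u ≤ h) :
    Pl f c ρ X l r u (h + 1) fun i => if i ≤ m then x i else y i := by
  have p3 : ∀ {a b : ℕ}, a ≤ b → 3 ^ a ≤ 3 ^ b := fun hab => Nat.pow_le_pow_right (by norm_num) hab
  have q1 := p3 h1
  have q2 := p3 h2
  have q3 := p3 h3
  have q4 : 3 ^ (h + 1) = 3 * 3 ^ h := by ring
  have ra : ∀ i, l ≤ i → i ≤ m → o ≤ x i ∧ x i < o + 3 ^ h := fun i a b =>
    Cs_range _ _ _ (hA (hx.mem i a b))
  have rb : ∀ i, m + 1 ≤ i → i ≤ r → o + 2 * 3 ^ h ≤ y i ∧ y i < o + 2 * 3 ^ h + 3 ^ h :=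
    fun i a b => Cs_range _ _ _ (hB (hy.mem i a b))
  have wa := (hx.cell hA).win
  have wb := (hy.cell hB).win
  have rm := ra m hl le_rfl
  have rm' := rb (m + 1) le_rfl hr
  refine ⟨fun i a b => ?_, fun i j a b d => ?_, fun i a b => ?_, fun i j a b d e g => ?_⟩
  · split_ifs with k
    exacts [hAX (hx.mem i a k), hBX (hy.mem i (by omega) b)]
  · split_ifs with k k' k'
    · exact hx.col i j a b k'
    · have := ra i a k
      have := rb j (by omega) d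
      rcases he i j a k (by omega) d with g | g
      · exact g
      · omega
    · omega
    · exact hy.col i j (by omega) b d
  · split_ifs with k k' k'
    · have := wa i a (by omega); omega
    · omega
    · obtain rfl : i = m := by omega
      omega
    · have := wb i (by omega) b; omega
  · have hj := hm i a b
    rcases lt_trichotomy i m with k | k | k <;> rcases lt_trichotomy j m with k' | k' | k'
    · rw [if_pos (by omega), if_pos (by omega), if_pos (by omega), if_pos (by omega)]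
      exact hx.ord i j a k d k' g
    · subst k'; omega
    · rw [if_neg (by omega), if_neg (by omega), if_pos (by omega), if_pos (by omega)]
      rcases hs with ⟨-, s2⟩ | ⟨s1, -⟩
      · have := (hx.win i a k).1
        have := (hy.win j k' e).2
        have := p3 s2
        omega
      · have := s1 j i k' e a k; omega
    · subst k
      rw [if_pos (by omega), if_pos (by omega), if_neg (by omega), if_pos (by omega)]
      have := wa j d k'; omega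
    · subst k'; omega
    · subst k
      rw [if_neg (by omega), if_neg (by omega), if_neg (by omega), if_pos (by omega)]
      have := wb j k' e; omega
    · rw [if_pos (by omega), if_pos (by omega), if_neg (by omega), if_neg (by omega)]
      rcases hs with ⟨s1, -⟩ | ⟨-, s2⟩
      · have := s1 j i d k' k b; omega
      · have := (hy.win i k b).1
        have := (hx.win j d k').2
        have := p3 s2
        omega
    · subst k'; omega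
    · rw [if_neg (by omega), if_neg (by omega), if_neg (by omega), if_neg (by omega)]
      exact hy.ord i j k b k' e g

/-- Gluing a piece and the rest. -/
theorem glue {X A B : Finset ℕ} {l r l₁ r₁ l₂ r₂ u u₁ v₁ u₂ v₂ h o : ℕ} {s : Bool}
    {x y : ℕ → ℕ} (hS : Spl ρ l r l₁ r₁ l₂ r₂ s) (hx : Pl f c ρ A l₁ r₁ u₁ v₁ x)
    (hy : Pl f c ρ B l₂ r₂ u₂ v₂ y) (hA : A ⊆ hf h o s) (hB : B ⊆ hf h o (!s))
    (hAX : A ⊆ X) (hBX : B ⊆ X)
    (he : ∀ i j, l₁ ≤ i → i ≤ r₁ → l₂ ≤ j → j ≤ r₂ → Ed f c (x i) (y j))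
    (hs : (Bef ρ l₁ r₁ l₂ r₂ ∧ v₂ ≤ u₁) ∨ (Bef ρ l₂ r₂ l₁ r₁ ∧ v₁ ≤ u₂))
    (h1 : u ≤ u₁) (h2 : u ≤ u₂) (h3 : u ≤ h) :
    ∃ z, Pl f c ρ X l r u (h + 1) z ∧ ∀ i, l ≤ i → i ≤ r →
      (∃ j, l₁ ≤ j ∧ j ≤ r₁ ∧ z i = x j) ∨ ∃ j, l₂ ≤ j ∧ j ≤ r₂ ∧ z i = y j := by
  obtain ⟨m, m1, m2, m3, m4⟩ := hS
  cases s
  · obtain ⟨rfl, rfl, rfl, rfl⟩ : l₁ = m + 1 ∧ r₁ = r ∧ l₂ = l ∧ r₂ = m := by simpa using m4
    refine ⟨_, glue₀ m1 m2 m3 hy hx hB hA hBX hAX (fun i j a b d e => (he j i d e a b).symm)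
      hs.symm h2 h1 h3, fun i a b => ?_⟩
    by_cases k : i ≤ r₂
    · exact Or.inr ⟨i, a, k, if_pos k⟩
    · exact Or.inl ⟨i, by omega, b, if_neg k⟩
  · obtain ⟨rfl, rfl, rfl, rfl⟩ : l₁ = l ∧ r₁ = m ∧ l₂ = m + 1 ∧ r₂ = r := by simpa using m4
    refine ⟨_, glue₀ m1 m2 m3 hx hy hA hB hAX hBX he hs h1 h2 h3, fun i a b => ?_⟩
    by_cases k : i ≤ r₁
    · exact Or.inl ⟨i, a, k, if_pos k⟩
    · exact Or.inr ⟨i, by omega, b, if_neg k⟩

end Pool.Agent.P.MP_4cb405_co.Hs
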