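import Pool.Agent.P.MP_4cb405_co.Hs.A

/-! Averages over lists of far sets. -/

set_option autoImplicit false

namespace Pool.Agent.P.MP_4cb405_co.Hs

open Finset
open scoped Classical BigOperators

/-- The indicator of a proposition. -/
noncomputable def ind (p : Prop) : ℝ := if p then 1 else 0

theorem ind_nonneg (p : Prop) : 0 ≤ ind p := by unfold ind; split_ifs <;> norm_num

theorem ind_le_one (p : Prop) : ind p ≤ 1 := by unfold ind; split_ifs <;> norm_num

theorem ind_and (p r : Prop) : ind (p ∧ r) = ind p * ind r := by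
  unfold ind; by_cases p <;> by_cases r <;> simp [*]

/-- The average over one point from each set of the list. -/
noncomputable def av : List (Finset ℕ) → (List ℕ → ℝ) → ℝ
  | [], g => g []
  | N :: L, g => 𝔼 z ∈ N, av L fun w => g (z :: w)

/-- The sum of the logarithms of the sizes. -/
noncomputable def lgs : List (Finset ℕ) → ℝ
  | [] => 0
  | N :: L => lg N + lgs L

/-- Nonempty subsets. -/
def Sub (L' L : List (Finset ℕ)) : Prop := List.Forall₂ (fun a b => a ⊆ b ∧ a.Nonempty) L' L

/-- All sets cut down to a property. -/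
noncomputable def cut (p : ℕ → Prop) (L : List (Finset ℕ)) : List (Finset ℕ) :=
  L.map fun N => N.filter p

/-- The fraction that survives the cut. -/
noncomputable def pb (p : ℕ → Prop) : List (Finset ℕ) → ℝ
  | [] => 1
  | N :: L => ((N.filter p).card : ℝ) / N.card * pb p L

theorem Sub.trans {L₁ L₂ L₃ : List (Finset ℕ)} (h : Sub L₁ L₂) (k : Sub L₂ L₃) : Sub L₁ L₃ := by
  induction h generalizing L₃ with
  | nil => exact k
  | cons h _ ih =>
    cases k with
    | cons k k' => exact .cons ⟨h.1.trans k.1, h.2⟩ (ih k')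

theorem Sub.self {L' L : List (Finset ℕ)} (h : Sub L' L) : Sub L' L' := by
  induction h with
  | nil => exact .nil
  | cons h _ ih => exact .cons ⟨Subset.rfl, h.2⟩ ih

theorem Sub.mem {L' L : List (Finset ℕ)} (h : Sub L' L) : ∀ N ∈ L', ∃ N' ∈ L, N ⊆ N' := by
  induction h with
  | nil => simp
  | cons h _ ih =>
    intro N hN
    rcases List.mem_cons.1 hN with rfl | hN
    · exact ⟨_, List.mem_cons_self, h.1⟩
    · obtain ⟨N', a, b⟩ := ih N hN
      exact ⟨N', List.mem_cons_of_mem _ a, b⟩

theorem av_add (L : List (Finset ℕ)) (g g' : List ℕ → ℝ) :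
    (av L fun w => g w + g' w) = av L g + av L g' := by
  induction L generalizing g g' with
  | nil => rfl
  | cons N L ih => simp only [av, ih, expect_add_distrib]

theorem av_mul (L : List (Finset ℕ)) (a : ℝ) (g : List ℕ → ℝ) :
    (av L fun w => a * g w) = a * av L g := by
  induction L generalizing g with
  | nil => rfl
  | cons N L ih => simp only [av, ih, mul_expect]

theorem av_exp (L : List (Finset ℕ)) (N : Finset ℕ) (g : ℕ → List ℕ → ℝ) :
    (av L fun w => 𝔼 z ∈ N, g z w) = 𝔼 z ∈ N, av L (g z) := by
  induction L generalizing g with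
  | nil => rfl
  | cons K L ih => simp only [av, ih]; exact expect_comm _ _ _

theorem av_unit (L : List (Finset ℕ)) {g : List ℕ → ℝ} (h : ∀ w, 0 ≤ g w ∧ g w ≤ 1) :
    0 ≤ av L g ∧ av L g ≤ 1 := by
  induction L generalizing g with
  | nil => exact h _
  | cons N L ih =>
    refine ⟨expect_nonneg fun z _ => (ih fun w => h _).1, ?_⟩
    rcases N.eq_empty_or_nonempty with rfl | hN
    · simp [av]
    · exact expect_le hN fun z _ => (ih fun w => h _).2

theorem exp_filter (N : Finset ℕ) (p : ℕ → Prop) (h : ℕ → ℝ) :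
    𝔼 z ∈ N, ind (p z) * h z = ((N.filter p).card : ℝ) / N.card * 𝔼 z ∈ N.filter p, h z := by
  rw [div_mul_eq_mul_div, card_mul_expect, expect_eq_sum_div_card, sum_filter]
  congr 1
  exact sum_congr rfl fun z _ => by unfold ind; split_ifs <;> simp

theorem av_cut (p : ℕ → Prop) (L : List (Finset ℕ)) (g : List ℕ → ℝ) :
    (av L fun w => ind (∀ z ∈ w, p z) * g w) = pb p L * av (cut p L) g := by
  induction L generalizing g with
  | nil => simp [av, pb, cut, ind]
  | cons N L ih =>
    simp only [av, pb, cut, List.map_cons, List.forall_mem_cons, ind_and, mul_assoc, av_mul]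
    rw [exp_filter, mul_expect _ _ (pb p L)]
    congr 1
    exact expect_congr rfl fun z _ => ih _

theorem pb_nonneg (p : ℕ → Prop) (L : List (Finset ℕ)) : 0 ≤ pb p L := by
  induction L with
  | nil => exact zero_le_one
  | cons N L ih => unfold pb; positivity

theorem cut_sub {p : ℕ → Prop} {L : List (Finset ℕ)} (h : 0 < pb p L) : Sub (cut p L) L := by
  induction L with
  | nil => exact .nil
  | cons N L ih =>
    have h1 := pb_nonneg p L
    refine .cons ⟨filter_subset _ _, ?_⟩ (ih (h1.lt_of_ne fun e => ?_))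
    · by_contra k
      rw [pb, show N.filter p = ∅ from not_nonempty_iff_eq_empty.1 k] at h
      simp at h
    · rw [pb, ← e] at h
      simp at h

theorem lg_ratio {N N' : Finset ℕ} (hN : N.Nonempty) (h : N' ⊆ N) :
    (N'.card : ℝ) * (lg N - lg N') ≤ N.card := by
  rcases N'.eq_empty_or_nonempty with rfl | h0
  · simp
  have R0 : (0 : ℝ) < N'.card := by exact_mod_cast h0.card_pos
  have t1 : (1 : ℝ) ≤ N.card / N'.card := by
    rw [le_div_iff₀ R0, one_mul]; exact_mod_cast card_le_card h
  have t2 : (N.card : ℝ) = N.card / N'.card * N'.card := by field_simp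
  generalize (N.card : ℝ) / N'.card = τ at *
  have t3 : lg N - τ ≤ lg N' := (lg_le_of _ _ τ hN (by
    have := one_add_mul_self_le_rpow_one_add (s := 1) (by norm_num) t1
    rw [Real.rpow_neg (by norm_num), inv_mul_le_iff₀ (by positivity), t2]
    refine mul_le_mul_of_nonneg_right ?_ R0.le
    norm_num at this
    linarith)).2
  rw [t2]
  nlinarith

theorem box_one {N : Finset ℕ} (hN : N.Nonempty) (p : ℕ → Prop) (h : ℕ → ℝ) {T : ℝ}
    (hT : ∀ N' ⊆ N, N'.Nonempty → (𝔼 z ∈ N', h z) + lg N' ≤ T) :
    ((N.filter p).card : ℝ) / N.card * (T - (𝔼 z ∈ N.filter p, h z) - lg (N.filter p)) ≤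
      T - (𝔼 z ∈ N, h z) - lg N + 2 := by
  have R0 : (0 : ℝ) < N.card := by exact_mod_cast hN.card_pos
  have c1 : ((N.filter p).card : ℝ) + (N.filter fun z => ¬ p z).card = N.card := by
    exact_mod_cast card_filter_add_card_filter_not p
  have s1 := sum_filter_add_sum_filter_not N p h
  rw [← card_mul_expect, ← card_mul_expect, ← card_mul_expect] at s1
  have r1 := lg_ratio hN (filter_subset p N)
  have r2 := lg_ratio hN (filter_subset (fun z => ¬ p z) N)
  have r3 : ((N.filter fun z => ¬ p z).card : ℝ) * ((𝔼 z ∈ N.filter fun z => ¬ p z, h z) +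
      lg (N.filter fun z => ¬ p z)) ≤ (N.filter fun z => ¬ p z).card * T := by
    rcases (N.filter fun z => ¬ p z).eq_empty_or_nonempty with e | e
    · simp [e]
    · exact mul_le_mul_of_nonneg_left (hT _ (filter_subset _ _) e) (Nat.cast_nonneg _)
  rw [div_mul_eq_mul_div, div_le_iff₀ R0]
  rw [← c1] at *
  linarith

theorem box (p : ℕ → Prop) (L : List (Finset ℕ)) (hL : Sub L L) (hp : 0 < pb p L)
    (g : List ℕ → ℝ) {T : ℝ} (hT : ∀ L', Sub L' L → av L' g + lgs L' ≤ T) :
    pb p L * (T - (av (cut p L) g + lgs (cut p L))) ≤ T - (av L g + lgs L) + 2 * L.length := by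
  induction L generalizing g T with
  | nil => simp [pb, cut]
  | cons N L ih =>
    obtain ⟨hN, hL⟩ := List.forall₂_cons.1 hL
    obtain ⟨hN', hL'⟩ := List.forall₂_cons.1 (cut_sub hp)
    have p0 := pb_nonneg p L
    have p1 : 0 < pb p L := p0.lt_of_ne fun e => by rw [pb, ← e] at hp; simp at hp
    have h1 := box_one hN.2 p (fun z => av L fun w => g (z :: w)) (T := T - lgs L)
      fun N' a b => by
        have := hT (N' :: L) (.cons ⟨a, b⟩ hL)
        simp only [av, lgs] at this
        linarith
    have h2 := ih hL p1 (fun w => 𝔼 z ∈ N.filter p, g (z :: w)) (T := T - lg (N.filter p))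
      fun L' a => by
        have := hT (N.filter p :: L') (.cons hN' a)
        simp only [av, lgs] at this
        rw [av_exp]
        linarith
    rw [av_exp, av_exp] at h2
    have r0 : (0 : ℝ) ≤ ((N.filter p).card : ℝ) / N.card := by positivity
    have r1 : ((N.filter p).card : ℝ) / N.card ≤ 1 :=
      div_le_one_of_le₀ (by exact_mod_cast card_filter_le _ _) (Nat.cast_nonneg _)
    have h3 := mul_le_mul_of_nonneg_left h2 r0
    have h4 := mul_le_mul_of_nonneg_right r1 (show (0 : ℝ) ≤ 2 * L.length by positivity)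
    simp only [pb, cut, List.map_cons, av, lgs, List.length_cons] at *
    push_cast
    linarith

theorem grade (val : ℕ → ℝ) (N : Finset ℕ) : N.Nonempty → ∃ N' t, N' ⊆ N ∧ N'.Nonempty ∧
    (∀ z ∈ N', t ≤ val z) ∧ (𝔼 z ∈ N, val z) + lg N - 2 ≤ t + lg N' := by
  induction N using induction_on_min_value val with
  | empty => simp
  | insert a N ha hm ih =>
    intro h0
    rcases N.eq_empty_or_nonempty with rfl | hN
    · exact ⟨_, val a, Subset.rfl, h0, by simp, by simp⟩
    obtain ⟨N', t, n1, n2, n3, n4⟩ := ih hN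
    by_cases k : t + lg N' ≤ val a + lg (insert a N)
    all_goals
      have R0 : (0 : ℝ) < N.card := by exact_mod_cast hN.card_pos
      have c1 : ((insert a N).card : ℝ) = N.card + 1 := by rw [card_insert_of_notMem ha]; simp
      have s1 := sum_insert (f := val) ha
      rw [← card_mul_expect, ← card_mul_expect, c1] at s1
      have l1 : (N.card : ℝ) * (lg (insert a N) - lg N) ≤ 2 := by
        unfold lg
        rw [c1, ← Real.logb_div (by positivity) R0.ne', Real.logb, ← mul_div_assoc,
          div_le_iff₀ (Real.log_pos (by norm_num))]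
        have h1 := Real.log_le_sub_one_of_pos (show 0 < ((N.card : ℝ) + 1) / N.card by positivity)
        have h2 : (N.card : ℝ) * ((N.card + 1) / N.card - 1) = 1 := by field_simp; ring
        have := mul_le_mul_of_nonneg_left h1 R0.le
        linarith [Real.log_two_gt_d9]
      have n5 := mul_le_mul_of_nonneg_left n4 R0.le
    · refine ⟨_, val a, Subset.rfl, h0, fun z hz => ?_, ?_⟩
      · rcases mem_insert.1 hz with rfl | hz
        exacts [le_rfl, hm z hz]
      · have := mul_le_mul_of_nonneg_left k R0.le
        refine le_of_mul_le_mul_left ?_ (show 0 < (N.card : ℝ) + 1 by positivity)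
        linarith
    · refine ⟨N', t, n1.trans (subset_insert _ _), n2, n3, ?_⟩
      refine le_of_mul_le_mul_left ?_ (show 0 < (N.card : ℝ) + 1 by positivity)
      linarith [not_le.1 k]

end Pool.Agent.P.MP_4cb405_co.Hs
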