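import Pool.Agent.P.MP_4cb405_co.Hs.B

/-! Links, the merit of a list of far sets, states. -/

set_option autoImplicit false

namespace Pool.Agent.P.MP_4cb405_co.Hs

open Finset
open scoped Classical BigOperators

variable {f : ℕ → ℕ → ℕ} {c q : ℕ} {ρ : ℕ → ℕ}

/-- The basic density. -/
noncomputable def dd (q : ℕ) : ℝ := (2 : ℝ) ^ (-((q : ℝ) + 2))

theorem dd_pos (q : ℕ) : 0 < dd q := by unfold dd; positivity

theorem dd_four (q : ℕ) : (2 : ℝ) ^ (-(q : ℝ)) = 4 * dd q := by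
  unfold dd
  rw [neg_add, Real.rpow_add (by norm_num), Real.rpow_neg (by norm_num) 2]
  norm_num
  ring

theorem dd_two (q : ℕ) : (2 : ℝ) ^ (-((q : ℝ) + 1)) = 2 * dd q := by
  have := dd_four q
  rw [neg_add, Real.rpow_add (by norm_num), Real.rpow_neg (by norm_num) 1, this]
  norm_num
  ring

theorem dd_le (q : ℕ) : 4 * dd q ≤ 1 := by
  rw [← dd_four]
  exact Real.rpow_le_one_of_one_le_of_nonpos (by norm_num) (by simp)

theorem dg_le (x : ℕ) (R : Finset ℕ) : dg f c x R ≤ R.card := by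
  unfold dg; exact_mod_cast card_filter_le _ _

/-- A balanced level at which the colour `c` is dense. -/
def Bal (f : ℕ → ℕ → ℕ) (c q : ℕ) (X : Finset ℕ) (h o : ℕ) : Prop :=
  ∀ s, (X ∩ hf h o s).Nonempty ∧ lg X - 2 ≤ lg (X ∩ hf h o s) ∧
    4 * dd q * (X ∩ hf h o s).card * (X ∩ hf h o (!s)).card ≤
      ∑ x ∈ X ∩ hf h o s, dg f c x (X ∩ hf h o (!s))

/-- The points of large degree. -/
theorem rich {P Q : Finset ℕ} (hP : P.Nonempty) (hQ : Q.Nonempty)
    (h : 4 * dd q * P.card * Q.card ≤ ∑ x ∈ P, dg f c x Q) :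
    (P.filter fun x => 2 * dd q * Q.card ≤ dg f c x Q).Nonempty ∧
      lg P - (q + 1) ≤ lg (P.filter fun x => 2 * dd q * Q.card ≤ dg f c x Q) := by
  refine lg_le_of _ _ _ hP ?_
  rw [dd_two]
  have Q0 : (0 : ℝ) < Q.card := by exact_mod_cast hQ.card_pos
  have d0 := dd_pos q
  have h1 : ∑ x ∈ P, dg f c x Q ≤ ∑ x ∈ P, (2 * dd q * Q.card +
      if 2 * dd q * Q.card ≤ dg f c x Q then (Q.card : ℝ) else 0) :=
    sum_le_sum fun x _ => by
      split_ifs with k
      · exact le_add_of_nonneg_of_le (by positivity) (dg_le _ _)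
      · linarith
  rw [sum_add_distrib, ← sum_filter, sum_const, sum_const, nsmul_eq_mul, nsmul_eq_mul] at h1
  refine le_of_mul_le_mul_right ?_ Q0
  linarith

/-- The density of the cliques through the far sets that are joined to `x`. -/
noncomputable def lk (f : ℕ → ℕ → ℕ) (c x : ℕ) (L : List (Finset ℕ)) : ℝ :=
  av L fun w => ind ((x :: w).Pairwise (Ed f c))

/-- The weighted number of final segments that are cliques. -/
noncomputable def mf (f : ℕ → ℕ → ℕ) (c : ℕ) : List ℝ → List ℕ → ℝ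
  | A :: As, z :: w => A * ind ((z :: w).Pairwise (Ed f c)) + mf f c As w
  | _, _ => 0

/-- The merit of a list of far sets. -/
noncomputable def Me (f : ℕ → ℕ → ℕ) (c : ℕ) (As : List ℝ) (L : List (Finset ℕ)) : ℝ :=
  av L (mf f c As) + lgs L

theorem lk_unit (x : ℕ) (L : List (Finset ℕ)) : 0 ≤ lk f c x L ∧ lk f c x L ≤ 1 :=
  av_unit L fun _ => ⟨ind_nonneg _, ind_le_one _⟩

theorem Me_cons (A : ℝ) (As : List ℝ) {N : Finset ℕ} (hN : N.Nonempty) (L : List (Finset ℕ)) :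
    Me f c (A :: As) (N :: L) = (𝔼 z ∈ N, (A * lk f c z L + Me f c As L)) + lg N := by
  simp only [Me, av, mf, lgs, av_add, av_mul, lk, expect_add_distrib, expect_const hN]
  ring

theorem lk_cut (x : ℕ) (L : List (Finset ℕ)) :
    lk f c x L = pb (Ed f c x) L * av (cut (Ed f c x) L) fun w => ind (w.Pairwise (Ed f c)) := by
  simp only [lk, List.pairwise_cons, ind_and, av_cut]

theorem lk_le (x : ℕ) (L : List (Finset ℕ)) : lk f c x L ≤ pb (Ed f c x) L := by
  rw [lk_cut]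
  exact mul_le_of_le_one_right (pb_nonneg _ _)
    (av_unit _ fun _ => ⟨ind_nonneg _, ind_le_one _⟩).2

/-- All points of the far sets are joined to the placed vertices. -/
def Jn (f : ℕ → ℕ → ℕ) (c l r : ℕ) (x : ℕ → ℕ) (L : List (Finset ℕ)) : Prop :=
  ∀ N ∈ L, ∀ z ∈ N, ∀ i, l ≤ i → i ≤ r → Ed f c (x i) z

/-- The state of a colour: target `[l, r]`, range `(b, h]`, far sets `L`. -/
structure St (f : ℕ → ℕ → ℕ) (c : ℕ) (ρ : ℕ → ℕ) (s : ℕ) (d e : ℝ) (X : Finset ℕ)
    (i l r b h : ℕ) (As : List ℝ) (L : List (Finset ℕ)) (A T φ : ℝ) : Prop where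
  ne : Sub L L
  len : L.length + i ≤ s
  pos : 0 < A
  up : ∀ L', Sub L' L → Me f c As L' ≤ T
  low : ∀ x ∈ X, φ ≤ A * lk f c x L + Me f c As L
  rel : T + A * d + e * ((r - l : ℕ) + 1) ≤ φ
  bud : φ ≤ A + T
  forb : ∀ x L', Pl f c ρ X l r b h x → Sub L' L → Jn f c l r x L' →
    Me f c As L' < T - (A + 2 * s) / d

variable {s i l r b h : ℕ} {d e A T φ : ℝ} {X : Finset ℕ} {As : List ℝ} {L : List (Finset ℕ)}

theorem St.mono {X' : Finset ℕ} {b' h' : ℕ} (H : St f c ρ s d e X i l r b h As L A T φ)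
    (hX : X' ⊆ X) (hb : b ≤ b') (hh : h' ≤ h) : St f c ρ s d e X' i l r b' h' As L A T φ :=
  ⟨H.ne, H.len, H.pos, H.up, fun x hx => H.low x (hX hx), H.rel, H.bud,
    fun x L' hx => H.forb x L' (hx.mono hX hb hh)⟩

theorem St.link (H : St f c ρ s d e X i l r b h As L A T φ) (he : 0 ≤ e) {x : ℕ} (hx : x ∈ X) :
    d ≤ pb (Ed f c x) L := by
  refine le_trans (le_of_mul_le_mul_left ?_ H.pos) (lk_le x L)
  have : 0 ≤ e * ((r - l : ℕ) + 1) := by positivity
  linarith [H.low x hx, H.rel, H.up L H.ne]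

theorem St.not_one (H : St f c ρ s d e X i l l b h As L A T φ) (hd : 0 < d) (he : 0 ≤ e)
    {x : ℕ} (hx : x ∈ X) : False := by
  have h1 := H.link he hx
  have h2 := cut_sub (hd.trans_le h1)
  have h3 := box (Ed f c x) L H.ne (hd.trans_le h1) _ H.up
  have h4 := H.forb _ _ (pl_one hx l b h) h2 fun N hN z hz _ _ _ => by
    obtain ⟨N', -, rfl⟩ := List.mem_map.1 hN
    exact (mem_filter.1 hz).2
  have h5 := H.up _ h2
  change _ * (T - Me f c As _) ≤ T - Me f c As L + _ at h3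
  have h6 := mul_le_mul_of_nonneg_right h1 (sub_nonneg.2 h5)
  have h7 : (L.length : ℝ) ≤ s := by exact_mod_cast le_of_add_le_left H.len
  have h8 := mul_le_of_le_one_right H.pos.le (lk_unit (f := f) (c := c) x L).2
  have h9 : 0 ≤ e * ((l - l : ℕ) + 1) := by positivity
  have := mul_pos H.pos hd
  rw [lt_sub_comm, div_lt_iff₀ hd] at h4
  linarith [H.low x hx, H.rel]

/-- A point of large degree has a large link in the extended list. -/
theorem St.rich_link (H : St f c ρ s d e X (i + 1) l r b h As L A T φ) (hd : 0 < d)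
    (he : 2 * s + 3 ≤ e * (2 * dd q * d)) {Q : Finset ℕ} (hQ : Q.Nonempty) (hQX : Q ⊆ X)
    (hU : ∀ L', Sub L' (Q :: L) → Me f c (A :: As) L' ≤ φ + lg Q + 3) {x : ℕ} (hx : x ∈ X)
    (hx' : 2 * dd q * Q.card ≤ dg f c x Q) : 2 * (dd q * d ^ 2) ≤ lk f c x (Q :: L) := by
  have d0 := dd_pos q
  have e0 : 0 ≤ e := by
    refine le_of_mul_le_mul_right ?_ (show 0 < 2 * dd q * d by positivity)
    have : (0 : ℝ) ≤ s := Nat.cast_nonneg _
    linarith
  have Q0 : (0 : ℝ) < Q.card := by exact_mod_cast hQ.card_pos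
  have h1 : 2 * dd q * d ≤ pb (Ed f c x) (Q :: L) :=
    mul_le_mul ((le_div_iff₀ Q0).2 hx') (H.link e0 hx) hd.le (by positivity)
  have p0 : 0 < pb (Ed f c x) (Q :: L) := lt_of_lt_of_le (by positivity) h1
  have h2 := cut_sub p0
  have h3 := box (Ed f c x) (Q :: L) (.cons ⟨Subset.rfl, hQ⟩ H.ne) p0 _ hU
  have h5 := hU _ h2
  change _ * (_ - Me f c (A :: As) _) ≤ _ - Me f c (A :: As) _ + _ at h3
  have h6 := mul_le_mul_of_nonneg_right h1 (sub_nonneg.2 h5)
  have h7 : (L.length : ℝ) + 1 ≤ s := by exact_mod_cast (by have := H.len; omega)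
  have h8 : φ + lg Q ≤ Me f c (A :: As) (Q :: L) := by
    rw [Me_cons _ _ hQ]
    have := le_expect hQ fun z hz => H.low z (hQX hz)
    linarith
  obtain ⟨y1, y2⟩ := List.forall₂_cons.1 h2
  have h9 : φ + lg Q + 3 - Me f c (A :: As) (cut (Ed f c x) (Q :: L)) ≤ e := by
    refine le_of_mul_le_mul_left ?_ (show 0 < 2 * dd q * d by positivity)
    simp only [List.length_cons] at h3
    push_cast at h3
    linarith
  rw [lk_cut]
  have k1 : d ≤ av (cut (Ed f c x) (Q :: L)) fun w => ind (w.Pairwise (Ed f c)) := by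
    refine le_of_mul_le_mul_left ?_ H.pos
    have k2 := Me_cons (f := f) (c := c) A As y1.2 (cut (Ed f c x) L)
    rw [expect_add_distrib, expect_const y1.2, ← mul_expect] at k2
    have k3 := lg_mono y1.2 y1.1
    have k4 := H.up _ y2
    have k5 : e ≤ e * ((r - l : ℕ) + 1) :=
      le_mul_of_one_le_right e0 (le_add_of_nonneg_left (Nat.cast_nonneg _))
    change _ - Me f c (A :: As) (Q.filter (Ed f c x) :: cut (Ed f c x) L) ≤ e at h9
    change _ ≤ A * 𝔼 z ∈ Q.filter (Ed f c x), lk f c z (cut (Ed f c x) L)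
    change Me f c As (cut (Ed f c x) L) ≤ T at k4
    linarith [H.rel]
  calc _ = 2 * dd q * d * d := by ring
    _ ≤ _ := mul_le_mul h1 k1 hd.le p0.le

/-- From a large merit of the extended list to a set of points with large values. -/
theorem pick {Q : Finset ℕ} {L' : List (Finset ℕ)} (h : Sub L' (Q :: L)) {μ : ℝ}
    (hμ : μ + lg Q + 2 ≤ Me f c (A :: As) L') :
    ∃ N L'' u, N ⊆ Q ∧ N.Nonempty ∧ Sub L'' L ∧ Sub (N :: L'') L' ∧ 0 ≤ u ∧ lg N = lg Q - u ∧
      ∀ z ∈ N, μ + u ≤ A * lk f c z L'' + Me f c As L'' := by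
  cases h with
  | @cons N₀ _ L'' _ h1 h2 =>
    obtain ⟨N, t, n1, n2, n3, n4⟩ := grade (fun z => A * lk f c z L'' + Me f c As L'') N₀ h1.2
    rw [Me_cons _ _ h1.2] at hμ
    exact ⟨N, L'', lg Q - lg N, n1.trans h1.1, n2, h2, .cons ⟨n1, n2⟩ (Sub.self h2),
      sub_nonneg.2 (lg_mono n2 (n1.trans h1.1)), by ring, fun z hz => by linarith [n3 z hz]⟩

end Pool.Agent.P.MP_4cb405_co.Hs
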