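import Pool.Agent.P.MP_4cb405_co.Hs.C

/-! The allowance of a colour and one step. -/

set_option autoImplicit false

namespace Pool.Agent.P.MP_4cb405_co.Hs

open Finset
open scoped Classical BigOperators

/-- The constants. -/
structure Par (q s : ℕ) where
  θ : ℝ
  d : ℕ → ℝ
  e : ℕ → ℝ
  W : ℕ → ℝ
  g : ℕ → ℕ
  θ0 : 0 ≤ θ
  d0 : ∀ i, 0 < d i
  d1 : ∀ i, 2 * d i ≤ 1
  d2 : ∀ i < s, d i ≤ dd q * d (i + 1) ^ 2
  e0 : ∀ i, 0 ≤ e i
  e1 : ∀ i, 2 * s + 3 ≤ e (i + 1) * (2 * dd q * d (i + 1))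
  e2 : ∀ i, ((e i + 3) / d i + 2 * s) / d i ≤ e (i + 1)
  W0 : ∀ i, 0 ≤ W i
  W1 : ∀ i, g (i + 1) + e (i + 1) ≤ W (i + 1)
  g1 : ∀ i, W i + (e i + 3) / d i + 4 ≤ θ * g (i + 1)

/-- The colour `c` can use at most `n` more units below height `h`. -/
inductive Al (f : ℕ → ℕ → ℕ) (c : ℕ) (ρ : ℕ → ℕ) {q s : ℕ} (P : Par q s) (X : Finset ℕ) :
    ℕ → ℝ → Prop
  | zero : Al f c ρ P X 0 0
  | weak {h : ℕ} {n n' : ℝ} : Al f c ρ P X h n → n ≤ n' → Al f c ρ P X h n'
  | waste {h : ℕ} {n : ℝ} : Al f c ρ P X h n → Al f c ρ P X (h + 1) (n + 1)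
  | free {i b h l r : ℕ} {n A T φ : ℝ} {As : List ℝ} {L : List (Finset ℕ)} :
      Al f c ρ P X b n → b ≤ h → Tr ρ i l r →
      St f c ρ s (P.d i) (P.e i) X i l r b h As L A T φ →
      Al f c ρ P X h (n + (i * P.θ * (h - b) + P.W i * ((r - l : ℕ) + 1) + (A + T - φ)))

variable {f : ℕ → ℕ → ℕ} {c q s : ℕ} {ρ : ℕ → ℕ} {P : Par q s} {X : Finset ℕ}

theorem extra_nonneg (P : Par q s) (i k : ℕ) {b h : ℕ} {A T φ : ℝ} (hb : b ≤ h) (hφ : φ ≤ A + T) :
    0 ≤ i * P.θ * (h - b) + P.W i * ((k : ℝ) + 1) + (A + T - φ) := by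
  have := P.θ0
  have := P.W0 i
  have : (0 : ℝ) ≤ h - b := sub_nonneg.2 (by exact_mod_cast hb)
  have := sub_nonneg.2 hφ
  positivity

theorem Al.nonneg {h : ℕ} {n : ℝ} (H : Al f c ρ P X h n) : 0 ≤ n := by
  induction H with
  | zero => exact le_rfl
  | weak _ h ih => exact ih.trans h
  | waste _ ih => linarith
  | free _ h1 _ h3 ih => exact add_nonneg ih (extra_nonneg P _ _ h1 h3.bud)

theorem Al.mono {X' : Finset ℕ} (hX : X' ⊆ X) {h : ℕ} {n : ℝ} (H : Al f c ρ P X h n) :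
    Al f c ρ P X' h n := by
  induction H with
  | zero => exact .zero
  | weak _ h ih => exact ih.weak h
  | waste _ ih => exact ih.waste
  | free _ h1 h2 h3 ih => exact ih.free h1 h2 (h3.mono hX le_rfl le_rfl)

theorem Al.down {h : ℕ} {n : ℝ} (H : Al f c ρ P X h n) : ∀ h' ≤ h, Al f c ρ P X h' n := by
  induction H with
  | zero => intro h' e; obtain rfl := Nat.le_zero.1 e; exact .zero
  | weak _ h ih => exact fun h' e => (ih h' e).weak h
  | waste H ih =>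
    intro h' e
    rcases e.eq_or_lt with rfl | e
    · exact H.waste
    · exact (ih h' (by omega)).weak (by linarith)
  | @free i b h l r n A T φ As L H h1 h2 h3 ih =>
    intro h' e
    rcases le_total b h' with k | k
    · refine (H.free k h2 (h3.mono Subset.rfl le_rfl e)).weak ?_
      have : (h' : ℝ) ≤ h := by exact_mod_cast e
      have := mul_le_mul_of_nonneg_left this (mul_nonneg (Nat.cast_nonneg i) P.θ0)
      linarith
    · exact (ih h' k).weak (le_add_of_nonneg_right (extra_nonneg P _ _ h1 h3.bud))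

theorem Al.wastes {h : ℕ} {n : ℝ} (H : Al f c ρ P X h n) (L : ℕ) :
    Al f c ρ P X (h + L) (n + L) := by
  induction L with
  | zero => simpa using H
  | succ L ih => exact ih.waste.weak (by push_cast; linarith)

/-- The outcome of one step. -/
def Out (f : ℕ → ℕ → ℕ) (c : ℕ) (ρ : ℕ → ℕ) {q s : ℕ} (P : Par q s) (X : Finset ℕ) (h : ℕ)
    (n : ℝ) : Prop :=
  ∃ X' h' o' Δ, X' ⊆ X ∧ X' ⊆ Cs h' o' ∧ X'.Nonempty ∧ h' ≤ h ∧ (h : ℝ) + 1 - h' ≤ Δ ∧
    lg X - (q + 3) * Δ ≤ lg X' ∧ Al f c ρ P X' h' (n - Δ)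

theorem Out.weak {h : ℕ} {n n' : ℝ} (H : Out f c ρ P X h n) (e : n ≤ n') : Out f c ρ P X h n' := by
  obtain ⟨X', h', o', m, h1, h2, h3, h4, h5, h6, h7⟩ := H
  exact ⟨X', h', o', m, h1, h2, h3, h4, h5, h6, h7.weak (by linarith)⟩

theorem out_pass {h o : ℕ} {n n' : ℝ} (hB : Bal f c q X h o) (h5 : n' + 1 ≤ n)
    (H : Al f c ρ P X h n') : Out f c ρ P X h n :=
  ⟨X ∩ hf h o true, h, o, 1, inter_subset_left, inter_subset_right, (hB true).1, le_rfl,
    by linarith, by have := (hB true).2.1; have : (0 : ℝ) ≤ q := Nat.cast_nonneg _; linarith,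
    (H.mono inter_subset_left).weak (by linarith)⟩

theorem free_step {i b h o l r : ℕ} {n A T φ : ℝ} {As : List ℝ} {L : List (Finset ℕ)}
    (hB : Bal f c q X h o) (H : Al f c ρ P X b n) (hb : b ≤ h) (hC : Tr ρ i l r)
    (hS : St f c ρ s (P.d i) (P.e i) X i l r b (h + 1) As L A T φ) :
    Out f c ρ P X h
      (n + (i * P.θ * (h + 1 - b) + P.W i * ((r - l : ℕ) + 1) + (A + T - φ))) := by
  have q0 : (0 : ℝ) ≤ q := Nat.cast_nonneg _
  cases hC with
  | one =>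
    obtain ⟨v, hv⟩ := (hB true).1
    exact (hS.not_one (P.d0 i) (P.e0 i) (mem_of_mem_inter_left hv)).elim
  | @step i _ _ l₁ r₁ l₂ r₂ sd hp hc1 hc2 hsep =>
    have hC := Tr.step hp hc1 hc2 hsep
    obtain ⟨-, -, -, s4⟩ := hp.size
    have ej : ((r - l : ℕ) : ℝ) = (r₁ - l₁ : ℕ) + (r₂ - l₂ : ℕ) + 1 := by rw [s4]; simp
    obtain ⟨a, ha⟩ : ∃ a : ℝ, a = (r₁ - l₁ : ℕ) + 1 := ⟨_, rfl⟩
    obtain ⟨a', ha'⟩ : ∃ a : ℝ, a = (r₂ - l₂ : ℕ) + 1 := ⟨_, rfl⟩
    have a1 : 1 ≤ a := ha ▸ le_add_of_nonneg_left (Nat.cast_nonneg _)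
    have a2 : 1 ≤ a' := ha' ▸ le_add_of_nonneg_left (Nat.cast_nonneg _)
    have ea : ((r - l : ℕ) : ℝ) + 1 = a + a' := by rw [ej, ha, ha']; ring
    obtain ⟨K, hK⟩ : ∃ K, K = P.g (i + 1) * (r₁ - l₁ + 1) := ⟨_, rfl⟩
    have eK : (K : ℝ) = P.g (i + 1) * a := by rw [hK, ha]; push_cast; ring
    have K0 : (0 : ℝ) ≤ K := Nat.cast_nonneg _
    have bh : (b : ℝ) ≤ h := by exact_mod_cast hb
    have t0 : 0 ≤ ((i + 1 : ℕ) : ℝ) * P.θ := mul_nonneg (Nat.cast_nonneg _) P.θ0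
    have tK := mul_nonneg t0 K0
    have bud := hS.bud
    have di := P.d0 i
    have ei := P.e0 i
    have w1 : K + P.e (i + 1) * a ≤ P.W (i + 1) * a := by
      rw [eK, ← add_mul]; exact mul_le_mul_of_nonneg_right (P.W1 i) (by linarith)
    have w2 : 0 ≤ P.e (i + 1) * a := mul_nonneg (P.e0 _) (by linarith)
    have w3 : 0 ≤ P.W (i + 1) * a' := mul_nonneg (P.W0 _) (by linarith)
    by_cases hroom : h < b + K
    · have H' := H.wastes (h - b)
      rw [Nat.add_sub_cancel' hb, Nat.cast_sub hb] at H'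
      refine out_pass hB ?_ H'
      have : (h : ℝ) + 1 ≤ b + K := by exact_mod_cast hroom
      have := mul_nonneg t0 (show (0 : ℝ) ≤ h + 1 - b by linarith)
      rw [ea]
      linarith
    have hr : b + K ≤ h := not_lt.1 hroom
    obtain ⟨b1, b2, b3⟩ := hB sd
    obtain ⟨c1, c2, -⟩ := hB (!sd)
    obtain ⟨r1, r2⟩ := rich b1 c1 b3
    obtain ⟨o₁, ho₁⟩ := hf_cell h o sd
    obtain ⟨o₂, ho₂⟩ := hf_cell h o (!sd)
    obtain ⟨Q, hQ⟩ : ∃ Q, Q = X ∩ hf h o (!sd) := ⟨_, rfl⟩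
    rw [← hQ] at c1 c2 r1 r2
    have QX : Q ⊆ X := hQ ▸ inter_subset_left
    have QC : Q ⊆ hf h o (!sd) := hQ ▸ inter_subset_right
    obtain ⟨Y, hY⟩ : ∃ Y, Y = (X ∩ hf h o sd).filter fun x => 2 * dd q * Q.card ≤ dg f c x Q :=
      ⟨_, rfl⟩
    rw [← hY] at r1 r2
    have YX : Y ⊆ X := hY ▸ (filter_subset _ _).trans inter_subset_left
    have YC : Y ⊆ hf h o sd := hY ▸ (filter_subset _ _).trans inter_subset_right
    have cap : ∀ {N : Finset ℕ} {L' : List (Finset ℕ)} {ψ : ℝ}, N.Nonempty → Sub L' L →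
        (∀ z ∈ N, ψ ≤ A * lk f c z L' + Me f c As L') → ψ ≤ A + T := fun ⟨z, hz⟩ h1 h2 =>
      (h2 z hz).trans (add_le_add (mul_le_of_le_one_right hS.pos.le (lk_unit _ _).2) (hS.up _ h1))
    by_cases hU : ∀ L', Sub L' (Q :: L) → Me f c (A :: As) L' ≤ φ + lg Q + 3
    swap
    · push Not at hU
      obtain ⟨L', u1, u2⟩ := hU
      obtain ⟨N, L'', u, n1, n2, n3, -, n5, n6, n7⟩ := pick (μ := φ + 1) u1 (by linarith)
      refine ⟨N, h, o₂, 1 + u, n1.trans QX, ho₂ ▸ n1.trans QC, n2, le_rfl, by linarith,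
        by nlinarith, ((H.mono (n1.trans QX)).free hb hC ⟨n3.self, n3.length_eq ▸ hS.len, hS.pos,
          fun L' k => hS.up _ (k.trans n3), n7, by linarith [hS.rel], cap n2 n3 n7,
          fun x L' k1 k2 => hS.forb x L' (k1.mono (n1.trans QX) le_rfl (Nat.le_succ h))
            (k2.trans n3)⟩).weak (by linarith)⟩
    obtain ⟨A', hA'⟩ : ∃ A', A' = (P.e i + 3) / P.d i * a := ⟨_, rfl⟩
    have A1 : A' * P.d i = (P.e i + 3) * a := by rw [hA']; field_simp
    have A0 : 0 < A' := by rw [hA']; positivity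
    have A2 : (A' + 2 * s) / P.d i ≤ P.e (i + 1) * a := by
      refine le_trans ?_ (mul_le_mul_of_nonneg_right (P.e2 i) (by linarith))
      rw [div_mul_eq_mul_div, add_mul, ← hA']
      refine div_le_div_of_nonneg_right ?_ di.le
      have : (0 : ℝ) ≤ s := Nat.cast_nonneg _
      nlinarith
    have A3 : P.W i * a + A' + 4 ≤ P.θ * K := by
      have := mul_le_mul_of_nonneg_right (P.g1 i) (show 0 ≤ a by linarith)
      rw [eK, hA']
      linarith
    have A4 : 0 ≤ P.d i * A' := by positivity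
    have att : ∀ u v, St f c ρ s (P.d i) (P.e i) Y i l₁ r₁ u v (A :: As) (Q :: L) A'
        (φ + lg Q + 3) (φ + lg Q + 2 * P.d i * A') ∨ ∃ x N L' k ψ, Pl f c ρ Y l₁ r₁ u v x ∧
          N ⊆ Q ∧ N.Nonempty ∧ Sub L' L ∧ Jn f c l₁ r₁ x (N :: L') ∧ 0 ≤ k ∧ lg N = lg Q - k ∧
          φ + 1 + k - P.e (i + 1) * a = ψ ∧ ∀ z ∈ N, ψ ≤ A * lk f c z L' + Me f c As L' := by
      intro u v
      refine or_iff_not_imp_right.2 fun hn => ⟨.cons ⟨Subset.rfl, c1⟩ hS.ne,
        by have := hS.len; simp only [List.length_cons]; omega, A0, hU, fun x hx => ?_,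
        by rw [← ha]; linarith, by nlinarith [P.d1 i], fun x L' k1 k2 k3 => ?_⟩
      · have h1 := hS.rich_link (P.d0 _) (P.e1 i) c1 QX hU (YX hx)
          (by rw [hY] at hx; exact (mem_filter.1 hx).2)
        have h2 := P.d2 i (by have := hS.len; omega)
        have h3 := mul_le_mul_of_nonneg_left (show 2 * P.d i ≤ _ from le_trans (by linarith) h1)
          A0.le
        have h4 := le_expect c1 fun z hz => hS.low z (QX hz)
        rw [Me_cons _ _ c1]
        linarith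
      · by_contra k4
        obtain ⟨N, L'', k, n1, n2, n3, n4, n5, n6, n7⟩ :=
          pick (μ := φ + 1 - P.e (i + 1) * a) k2 (by linarith)
        refine hn ⟨x, N, L'', k, _, k1, n1, n2, n3, fun M hM z hz => ?_, n5, n6, rfl,
          fun z hz => by linarith [n7 z hz]⟩
        obtain ⟨M', m1, m2⟩ := n4.mem M hM
        exact k3 M' m1 z (m2 hz)
    have suc : ∀ {x : ℕ → ℕ} {N V : Finset ℕ} {L' : List (Finset ℕ)} {k ψ : ℝ} {u v b' h' : ℕ},
        Pl f c ρ Y l₁ r₁ u v x → N ⊆ Q → V ⊆ N → V.Nonempty → Sub L' L →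
        Jn f c l₁ r₁ x (N :: L') → 0 ≤ k → φ + 1 + k - P.e (i + 1) * a = ψ →
        (∀ z ∈ N, ψ ≤ A * lk f c z L' + Me f c As L') → b ≤ u → b ≤ b' →
        (Bef ρ l₁ r₁ l₂ r₂ ∧ h' ≤ u) ∨ (Bef ρ l₂ r₂ l₁ r₁ ∧ v ≤ b') →
        St f c ρ s (P.d (i + 1)) (P.e (i + 1)) V (i + 1) l₂ r₂ b' h' As L' A T ψ := by
      intro x N V L' k ψ u v b' h' n1 n2 n3 n4 n5 n6 n7 n8 n9 m1 m2 m3
      have rel := hS.rel
      rw [ea] at rel
      refine ⟨n5.self, n5.length_eq ▸ hS.len, hS.pos, fun L' k => hS.up _ (k.trans n5),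
        fun z hz => n9 z (n3 hz), by rw [← ha']; linarith, cap n4 n5 fun z hz => n9 z (n3 hz),
        fun y L'' k1 k2 k3 => ?_⟩
      obtain ⟨z, hz, hz'⟩ := glue (X := X) (u := b) hp n1 k1 YC (n3.trans (n2.trans QC)) YX
        (n3.trans (n2.trans QX))
        (fun i j i1 i2 j1 j2 => n6 N List.mem_cons_self _ (n3 (k1.mem j j1 j2)) i i1 i2)
        m3 m1 m2 hb
      refine hS.forb z L'' hz (k2.trans n5) fun M hM w hw i i1 i2 => ?_
      rcases hz' i i1 i2 with ⟨j, j1, j2, e⟩ | ⟨j, j1, j2, e⟩ <;> rw [e]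
      · obtain ⟨M', m1, m2⟩ := k2.mem M hM
        exact n6 M' (List.mem_cons_of_mem _ m1) w (m2 hw) j j1 j2
      · exact k3 M hM w hw j j1 j2
    rcases hsep with hsep | hsep
    · obtain ⟨u, rfl⟩ : ∃ u, h = u + K := ⟨h - K, by omega⟩
      have bu : b ≤ u := by omega
      rcases att u (u + K) with hban | ⟨x, N, L', k, ψ, n1, n2, n3, n4, n5, n6, n7, n8, n9⟩
      · refine ⟨Y, _, o₁, 1, YX, ho₁ ▸ YC, r1, le_rfl, by linarith, by linarith,
          ((((H.mono YX).free bu hC (hS.mono YX le_rfl (by omega))).free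
            (Nat.le_add_right _ _) hc1 hban)).weak ?_⟩
        rw [← ha]
        push_cast at *
        linarith
      · obtain ⟨V, o', v1, v2, v3, v4⟩ := descend K n3 (ho₂ ▸ n2.trans QC)
        have VX : V ⊆ X := v1.trans (n2.trans QX)
        refine ⟨V, u, o', K + 1 + k, VX, v2, v3, Nat.le_add_right _ _, by push_cast; linarith,
          by nlinarith, ((H.mono VX).free bu hc2 (suc n1 n2 v1 v3 n4 n5 n6 n8 n9 bu le_rfl
            (Or.inl ⟨hsep, le_rfl⟩))).weak ?_⟩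
        rw [← ha', ea]
        push_cast at *
        linarith
    · rcases att b (b + K) with hban | ⟨x, N, L', k, ψ, n1, n2, n3, n4, n5, n6, n7, n8, n9⟩
      · refine ⟨Y, _, o₁, 1, YX, ho₁ ▸ YC, r1, le_rfl, by linarith, by linarith,
          ((((H.mono YX).free (Nat.le_add_right _ _) hc1 hban).free hr hC
            (hS.mono YX (Nat.le_add_right _ _) (Nat.le_succ h)))).weak ?_⟩
        rw [← ha]
        push_cast at *
        linarith
      · have NX := n2.trans QX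
        refine ⟨N, h, o₂, 1 + k, NX, ho₂ ▸ n2.trans QC, n3, le_rfl, by linarith, by nlinarith,
          ((((H.mono NX).wastes K).free hr hc2 (suc n1 n2 Subset.rfl n3 n4 n5 n6 n8 n9 le_rfl
            (Nat.le_add_right _ _) (Or.inr ⟨hsep, le_rfl⟩)))).weak ?_⟩
        rw [← ha', ea]
        push_cast at *
        linarith

theorem Al.step {h o : ℕ} (hB : Bal f c q X h o) {H : ℕ} {n : ℝ} (hA : Al f c ρ P X H n) :
    H = h + 1 → Out f c ρ P X h n := by
  induction hA with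
  | zero => intro e; omega
  | weak _ k ih => exact fun e => (ih e).weak k
  | waste K _ =>
    intro e
    obtain rfl := Nat.succ_injective e
    exact out_pass hB le_rfl K
  | free K h1 h2 h3 ih =>
    rintro rfl
    rcases h1.eq_or_lt with e | e
    · exact (ih e).weak (le_add_of_nonneg_right (extra_nonneg P _ _ h1 h3.bud))
    · have := free_step hB K (by omega) h2 h3
      push_cast at this ⊢
      exact this

end Pool.Agent.P.MP_4cb405_co.Hs
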