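import Pool.Agent.P.MP_4cb405_co.Hs.D

/-! The count of levels. -/

set_option autoImplicit false

namespace Pool.Agent.P.MP_4cb405_co.Hs

open Finset
open scoped Classical

variable {f : ℕ → ℕ → ℕ} {q s : ℕ} {ρ : ℕ → ℕ}

theorem bal_of (hq : 0 < q) (hf' : ∀ x y, f x y < q) {X : Finset ℕ} {h o : ℕ}
    (h1 : (X ∩ Cs h o).Nonempty) (h2 : lg X - 2 ≤ lg (X ∩ Cs h o))
    (h3 : (X ∩ Cs h (o + 2 * 3 ^ h)).Nonempty) (h4 : lg X - 2 ≤ lg (X ∩ Cs h (o + 2 * 3 ^ h))) :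
    ∃ c < q, Bal f c q X h o := by
  obtain ⟨c, hc, hm⟩ := majority q hq f hf' (X ∩ Cs h o) (X ∩ Cs h (o + 2 * 3 ^ h))
  rw [dd_four] at hm
  have k : 4 * dd q * (X ∩ Cs h o).card * (X ∩ Cs h (o + 2 * 3 ^ h)).card ≤
      ∑ x ∈ X ∩ Cs h o, dg f c x (X ∩ Cs h (o + 2 * 3 ^ h)) :=
    hm.trans (sum_le_sum fun x hx => by
      unfold dg
      refine Nat.cast_le.2 (card_le_card fun y hy => mem_filter.2 ⟨(mem_filter.1 hy).1,
        Or.inl ⟨?_, (mem_filter.1 hy).2⟩⟩)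
      have := Cs_range _ _ _ (mem_of_mem_inter_right hx)
      have := Cs_range _ _ _ (mem_of_mem_inter_right (mem_filter.1 hy).1)
      omega)
  refine ⟨c, hc, fun s => ?_⟩
  cases s
  · refine ⟨h3, h4, ?_⟩
    change 4 * dd q * (X ∩ Cs h (o + 2 * 3 ^ h)).card * (X ∩ Cs h o).card ≤
      ∑ x ∈ X ∩ Cs h (o + 2 * 3 ^ h), dg f c x (X ∩ Cs h o)
    rw [mul_right_comm]
    refine k.trans (le_of_eq ?_)
    unfold dg
    rw [sum_filter_swap]
    exact sum_congr rfl fun y _ => by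
      congr 2
      exact filter_congr fun x _ => ⟨Ed.symm, Ed.symm⟩
  · exact ⟨h1, h2, k⟩

theorem loop (hq : 0 < q) (hf' : ∀ x y, f x y < q) (P : Par q s) :
    ∀ (h o : ℕ) (X : Finset ℕ) (n : ℕ → ℝ), X.Nonempty → X ⊆ Cs h o →
      (∀ c < q, Al f c ρ P X h (n c)) → 2 * lg X ≤ h + 2 * (q + 3) * ∑ c ∈ range q, n c := by
  intro h
  induction h using Nat.strong_induction_on with
  | _ h ih =>
    intro o X n h1 h2 h3
    rcases h with - | h
    · have a1 := lg_le_height h1 h2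
      have a2 : 0 ≤ ∑ c ∈ range q, n c := sum_nonneg fun c hc => (h3 c (mem_range.1 hc)).nonneg
      have : 0 ≤ 2 * (q + 3) * ∑ c ∈ range q, n c := by positivity
      rw [Nat.cast_zero] at *
      linarith
    rcases split_level h1 h2 with ⟨V, o', v1, v2, v3, v4⟩ | ⟨b1, b2, b3, b4⟩
    · have := ih h (by omega) o' V n v3 v2 fun c hc => ((h3 c hc).mono v1).down h (by omega)
      push_cast
      linarith
    · obtain ⟨c, hc, hB⟩ := bal_of hq hf' b1 b2 b3 b4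
      obtain ⟨V, h', o', m, v1, v2, v3, v4, -, v6, v7⟩ := (h3 c hc).step hB rfl
      have := ih h' (by omega) o' V (Function.update n c (n c - m)) v3 v2 fun c' hc' => by
        by_cases e : c' = c
        · subst e; rwa [Function.update_self]
        · rw [Function.update_of_ne e]
          exact ((h3 c' hc').mono v1).down h' (by omega)
      rw [sum_update_of_mem (mem_range.2 hc), sdiff_singleton_eq_erase] at this
      rw [← add_sum_erase _ _ (mem_range.2 hc)]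
      have : (h' : ℝ) ≤ h := by exact_mod_cast v4
      push_cast
      linarith

theorem exists_seq (F : ℕ → ℝ → ℝ) :
    ∃ e : ℕ → ℝ, (∀ i, 0 ≤ e i) ∧ ∀ i, F i (e i) ≤ e (i + 1) :=
  ⟨fun n => Nat.rec 0 (fun i x => max 0 (F i x)) n,
    fun i => by cases i; exacts [le_rfl, le_max_left _ _], fun _ => le_max_right _ _⟩

theorem exists_par (q s : ℕ) {θ : ℝ} (hθ : 0 < θ) : ∃ P : Par q s, P.θ = θ := by
  have d0 := dd_pos q
  have d1 := dd_le q
  obtain ⟨d, hd⟩ : ∃ d : ℕ → ℝ, d = fun i => dd q ^ 3 ^ (s - i) := ⟨_, rfl⟩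
  have p0 : ∀ i, 0 < d i := fun i => by rw [hd]; positivity
  obtain ⟨e, e0, e1⟩ := exists_seq fun i x =>
    max ((2 * s + 3) / (2 * dd q * d (i + 1))) (((x + 3) / d i + 2 * s) / d i)
  obtain ⟨W, W0, W1⟩ := exists_seq fun i x => ⌈(x + (e i + 3) / d i + 4) / θ⌉₊ + e (i + 1)
  refine ⟨⟨θ, d, e, W, fun j => ⌈(W (j - 1) + (e (j - 1) + 3) / d (j - 1) + 4) / θ⌉₊, hθ.le, p0,
    fun i => ?_, fun i hi => ?_, e0, fun i => ?_, fun i => (le_max_right _ _).trans (e1 i), W0,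
    W1, fun i => ?_⟩, rfl⟩
  · have : d i ≤ dd q := hd ▸ pow_le_of_le_one d0.le (by linarith) (by positivity)
    linarith
  · simp only [hd]
    rw [← pow_mul, ← pow_succ', show s - i = s - (i + 1) + 1 by omega, pow_succ 3]
    have : 0 < 3 ^ (s - (i + 1)) := by positivity
    exact pow_le_pow_of_le_one d0.le (by linarith) (by omega)
  · have := p0 (i + 1)
    exact (div_le_iff₀ (by positivity)).1 ((le_max_left _ _).trans (e1 i))
  · exact (div_le_iff₀' hθ).1 (Nat.le_ceil _)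

theorem core (q s : ℕ) (hq : 0 < q) : ∃ C : ℕ, ∀ (f : ℕ → ℕ → ℕ), (∀ x y, f x y < q) →
    ∀ (ρ : ℕ → ℕ) (n : ℕ), Tr ρ s 0 n → ∀ N, 2 ^ (C * (n + 1)) ≤ N →
      ∃ c < q, ∃ v x, Pl f c ρ (range N) 0 n 0 v x := by
  have q0 : (0 : ℝ) < q := by exact_mod_cast hq
  obtain ⟨U, hU⟩ : ∃ U : ℝ, U = 2 * (q + 3) := ⟨_, rfl⟩
  have U0 : 0 < U := by rw [hU]; positivity
  obtain ⟨P, hP⟩ := exists_par q s (show 0 < 1 / (2 * q * U * (s + 1)) by positivity)
  obtain ⟨M, hM⟩ := exists_nat_gt (2 * q * U * P.W s)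
  refine ⟨2 * M, fun f hf' ρ n hC N hN => ?_⟩
  by_contra hn
  have hsub : Cs (M * (n + 1)) 0 ⊆ range N := fun x hx => by
    have := (Cs_range _ _ _ hx).2
    have h3 : 3 ^ (M * (n + 1)) ≤ 2 ^ (2 * M * (n + 1)) := by
      rw [mul_assoc, pow_mul 2 2]
      exact Nat.pow_le_pow_left (by norm_num) _
    exact mem_range.2 (by omega)
  obtain ⟨A, hA⟩ : ∃ A : ℝ, A = 2 * (P.e s * ((n - 0 : ℕ) + 1)) + 1 := ⟨_, rfl⟩
  have A0 : 0 < A := by have := P.e0 s; rw [hA]; positivity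
  have := loop (f := f) (ρ := ρ) hq hf' P (M * (n + 1)) 0 _ _ (Cs_nonempty _ _) Subset.rfl
    fun c hc => Al.free (As := []) (L := []) (A := A) (T := 0) (φ := A) .zero (Nat.zero_le _) hC
      ⟨.nil, by simp, A0, fun L' h => by cases h; simp [Me, av, mf, lgs],
        fun x _ => by simp [Me, av, mf, lgs, lk, ind], by nlinarith [P.d1 s], by simp,
        fun x _ hx => (hn ⟨c, hc, _, x, hx.mono hsub le_rfl le_rfl⟩).elim⟩
  rw [lg_Cs, sum_const, card_range, nsmul_eq_mul, ← hU, hP, Nat.sub_zero] at this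
  obtain ⟨H, hH⟩ : ∃ H : ℝ, H = (M * (n + 1) : ℕ) := ⟨_, rfl⟩
  have H0 : 0 ≤ H := hH ▸ Nat.cast_nonneg _
  rw [← hH] at this
  have e : U * (q * (0 + (s * (1 / (2 * q * U * (s + 1))) * (H - (0 : ℕ)) +
      P.W s * ((n : ℝ) + 1) + (A + 0 - A)))) =
      H / 2 - H / (2 * (s + 1)) + q * U * P.W s * (n + 1) := by
    push_cast; field_simp; ring
  rw [e] at this
  have : 0 ≤ H / (2 * (s + 1)) := by positivity
  have := mul_lt_mul_of_pos_right hM (show (0 : ℝ) < n + 1 by positivity)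
  push_cast at hH
  linarith

end Pool.Agent.P.MP_4cb405_co.Hs
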